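import Mathlib
import Pool.Agent.H28.RSol

set_option autoImplicit false

open scoped Topology
open Filter Finset

namespace Pool.Agent.Results.MP_93a94a_an.Empty

/-- Positive solutions of (E); `x j` stands for `x_{j-(2k+2)}`. -/
def IsSol (k : ℕ) (α x : ℕ → ℝ) : Prop :=
  (∀ j ≤ 2 * k + 2, 0 < x j) ∧ ∀ n, x (n + 2 * k + 3) =
    α n / ∏ j ∈ range (k + 1), x (n + 2 * k + 2 - j) + 1 / ∏ j ∈ range (k + 1), x (n + k - j)

lemma refl (k m : ℕ) (x : ℕ → ℝ) :
    ∏ j ∈ range (k + 1), x (m + k - j) = ∏ j ∈ range (k + 1), x (m + j) := by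
  rw [← prod_range_reflect]
  refine prod_congr rfl fun j hj => ?_
  rw [mem_range] at hj
  congr 1
  omega

lemma rec' {k : ℕ} {α x : ℕ → ℝ} (hx : IsSol k α x) (n : ℕ) : x (n + (k + 2) + (k + 1)) =
    α n / ∏ j ∈ range (k + 1), x (n + (k + 2) + j) + 1 / ∏ j ∈ range (k + 1), x (n + j) := by
  rw [← refl, ← refl, show n + (k + 2) + (k + 1) = n + 2 * k + 3 by ring,
    show n + (k + 2) + k = n + 2 * k + 2 by ring]
  exact hx.2 n

lemma pos {k : ℕ} {α x : ℕ → ℝ} (hα : ∀ n, 0 ≤ α n) (hx : IsSol k α x) (n : ℕ) : 0 < x n := by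
  induction n using Nat.strong_induction_on with
  | _ n ih =>
    by_cases hn : n ≤ 2 * k + 2
    · exact hx.1 n hn
    · obtain ⟨m, rfl⟩ : ∃ m, n = m + (k + 2) + (k + 1) := ⟨n - (2 * k + 3), by omega⟩
      rw [rec' hx]
      have a1 : 0 < ∏ j ∈ range (k + 1), x (m + (k + 2) + j) :=
        prod_pos fun j hj => ih _ (by rw [mem_range] at hj; omega)
      have a2 : 0 < ∏ j ∈ range (k + 1), x (m + j) :=
        prod_pos fun j hj => ih _ (by rw [mem_range] at hj; omega)
      have := hα m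
      positivity

lemma ex (k : ℕ) (α : ℕ → ℝ) : ∃ x, IsSol k α x := by
  obtain ⟨x, h1, h2⟩ := Pool.Agent.H28.RSol.exists_sol (2 * k + 3) (fun n v =>
    α n / ∏ j : Fin (k + 1), v ⟨2 * k + 2 - j, by omega⟩ +
      1 / ∏ j : Fin (k + 1), v ⟨k - j, by omega⟩) fun _ => 1
  refine ⟨x, fun j hj => by rw [h1 j (by omega)]; exact one_pos, fun n => ?_⟩
  rw [add_assoc, h2, prod_range, prod_range]
  have e1 : ∀ j : Fin (k + 1), n + 2 * k + 2 - j = n + (2 * k + 2 - j) := fun j => by
    have := j.2; omega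
  have e2 : ∀ j : Fin (k + 1), n + k - j = n + (k - j) := fun j => by
    have := j.2; omega
  simp only [e1, e2]

lemma none {k p : ℕ} {α x y : ℕ → ℝ} (hα : ∀ n, 0 ≤ α n) (hp : 0 < p)
    (hper : ∀ n, α (n + p) = α n) (hx : IsSol k α x) (hy : ∀ n, y (n + (k + 2)) = y n)
    (hl : Tendsto (fun n => x n - y n) atTop (𝓝 0)) (n : ℕ) : α (n + 1) = α n := by
  set c := ∏ j ∈ range (k + 2), y j with hc
  have hcn : ∀ n, ∏ j ∈ range (k + 2), y (n + j) = c := by
    intro n
    induction n with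
    | zero => simp [hc]
    | succ n ih =>
      rw [← ih, prod_range_succ, prod_range_succ' (fun j => y (n + j)),
        show n + 1 + (k + 1) = n + (k + 2) by ring, hy, add_zero]
      congr 1
      exact prod_congr rfl fun j _ => by rw [show n + 1 + j = n + (j + 1) by ring]
  have hyp : ∀ m n, y (n + (k + 2) * m) = y n := by
    intro m
    induction m with
    | zero => simp
    | succ m ih => intro n; rw [mul_add_one, ← add_assoc, hy, ih]
  have hap : ∀ m n, α (n + p * m) = α n := by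
    intro m
    induction m with
    | zero => simp
    | succ m ih => intro n; rw [mul_add_one, ← add_assoc, hper, ih]
  set Z : ℕ → ℝ := fun n => ∏ j ∈ range (k + 2), x (n + j) with hZ
  have lim : ∀ n, Tendsto (fun m => Z (n + p * ((k + 2) * m))) atTop (𝓝 c) := by
    intro n
    rw [← hcn n]
    refine tendsto_finsetProd _ fun j _ => ?_
    have t1 : Tendsto (fun m => n + p * ((k + 2) * m) + j) atTop atTop := by
      refine tendsto_atTop_mono (fun m => ?_) tendsto_id
      have : m ≤ p * ((k + 2) * m) := by nlinarith [Nat.zero_le (k * m), Nat.zero_le m]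
      simp only [id]
      omega
    have := (hl.comp t1).add_const (y (n + j))
    rw [zero_add] at this
    refine this.congr fun m => ?_
    simp only [Function.comp]
    rw [show n + p * ((k + 2) * m) + j = n + j + (k + 2) * (p * m) by ring, hyp]
    ring
  have rel : ∀ n, (Z (n + (k + 2)) - α n) * Z n = Z (n + (k + 1)) ∧ α n ≤ Z (n + (k + 2)) := by
    intro n
    have a1 : 0 < ∏ j ∈ range (k + 1), x (n + (k + 2) + j) := prod_pos fun j _ => pos hα hx _
    have a2 : 0 < ∏ j ∈ range (k + 1), x (n + j) := prod_pos fun j _ => pos hα hx _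
    have e1 : Z (n + (k + 2)) = (∏ j ∈ range (k + 1), x (n + (k + 2) + j)) *
        x (n + (k + 2) + (k + 1)) := prod_range_succ _ _
    have e2 : Z n = (∏ j ∈ range (k + 1), x (n + j)) * x (n + (k + 1)) := prod_range_succ _ _
    have e3 : Z (n + (k + 1)) = (∏ j ∈ range (k + 1), x (n + (k + 2) + j)) * x (n + (k + 1)) := by
      simp only [hZ]
      rw [prod_range_succ' (fun j => x (n + (k + 1) + j)), add_zero]
      congr 1
      exact prod_congr rfl fun j _ => by rw [show n + (k + 1) + (j + 1) = n + (k + 2) + j by ring]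
    rw [e1, e2, e3, rec' hx]
    constructor
    · field_simp
      ring
    · rw [mul_add, mul_div_cancel₀ _ a1.ne']
      have := mul_pos a1 (one_div_pos.2 a2)
      linarith
  have key : ∀ n, (c - α n) * c = c ∧ α n ≤ c := by
    intro n
    have l1 : Tendsto (fun m => Z (n + p * ((k + 2) * m) + (k + 2))) atTop (𝓝 c) :=
      (lim (n + (k + 2))).congr fun m => by congr 1; ring
    have l2 : Tendsto (fun m => Z (n + p * ((k + 2) * m) + (k + 1))) atTop (𝓝 c) :=
      (lim (n + (k + 1))).congr fun m => by congr 1; ring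
    refine ⟨tendsto_nhds_unique ((l1.sub_const (α n)).mul (lim n)) (l2.congr fun m => ?_),
      ge_of_tendsto' l1 fun m => ?_⟩
    · rw [← (rel _).1, hap]
    · rw [← hap ((k + 2) * m) n]
      exact (rel _).2
  by_cases h0 : c = 0
  · have a1 := (key n).2
    have a2 := (key (n + 1)).2
    linarith [hα n, hα (n + 1)]
  · have a1 := mul_right_cancel₀ h0 ((key n).1.trans (one_mul c).symm)
    have a2 := mul_right_cancel₀ h0 ((key (n + 1)).1.trans (one_mul c).symm)
    linarith

theorem result (k p : ℕ) (α : ℕ → ℝ) (hα : ∀ n, 0 ≤ α n) (hp : 2 ≤ p)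
    (hper : IsLeast {q : ℕ | 0 < q ∧ ∀ n, α (n + q) = α n} p) :
    (¬ ∀ x, IsSol k α x → ∃ y, IsSol k α y ∧ (∀ n, y (n + (k + 2)) = y n) ∧
      Tendsto (fun n => x n - y n) atTop (𝓝 0)) ∧
    ∀ x, IsSol k α x → ∀ y : ℕ → ℝ, (∀ n, y (n + (k + 2)) = y n) →
      ¬ Tendsto (fun n => x n - y n) atTop (𝓝 0) := by
  have h : ∀ x, IsSol k α x → ∀ y : ℕ → ℝ, (∀ n, y (n + (k + 2)) = y n) →
      ¬ Tendsto (fun n => x n - y n) atTop (𝓝 0) := fun x hx y hy hl => by
    have := hper.2 ⟨one_pos, none hα hper.1.1 hper.1.2 hx hy hl⟩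
    omega
  refine ⟨fun hall => ?_, h⟩
  obtain ⟨x, hx⟩ := ex k α
  obtain ⟨y, -, hy, hl⟩ := hall x hx
  exact h x hx y hy hl

end Pool.Agent.Results.MP_93a94a_an.Empty
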